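import Pool.Agent.helper34.NTA.Spec

set_option autoImplicit false

namespace Pool.Agent.NTA

open Equiv

theorem POS_fin {X : Type} (A : ArcFamily X) (x y : X) :
    Finite {p : A.P // (∃ i, i < A.len x ∧ A.pt x i = p) ∧ ∃ j, j < A.len y ∧ A.pt y j = p} := by
  have h : Function.Surjective (fun i : {i : Fin (A.len x) // ∃ j, j < A.len y ∧ A.pt y j = A.pt x i} =>
      (⟨A.pt x i.1, ⟨i.1, i.1.2, rfl⟩, i.2⟩ :
        {p : A.P // (∃ i, i < A.len x ∧ A.pt x i = p) ∧ ∃ j, j < A.len y ∧ A.pt y j = p})) := by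
    rintro ⟨p, ⟨i, hi, rfl⟩, hj⟩
    exact ⟨⟨⟨i, hi⟩, hj⟩, rfl⟩
  exact Finite.of_surjective _ h

theorem POS_ne {X : Type} (A : ArcFamily X) (x y : X) (i j : ℕ) (hi : i < A.len x) (hj : j < A.len y)
    (h : A.pt x i = A.pt y j) : A.mult x y ≠ 0 := by
  have h1 := POS_fin A x y
  unfold ArcFamily.mult
  rw [Nat.card_ne_zero]
  exact ⟨⟨⟨A.pt x i, ⟨i, hi, rfl⟩, ⟨j, hj, h.symm⟩⟩⟩, h1⟩

theorem POS_one {X : Type} (A : ArcFamily X) (x y : X) (h : A.mult x y = 1) :
    ∃ i j, i < A.len x ∧ j < A.len y ∧ A.pt x i = A.pt y j ∧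
      ∀ i' j', i' < A.len x → j' < A.len y → A.pt x i' = A.pt y j' → i' = i ∧ j' = j := by
  unfold ArcFamily.mult at h
  rw [Nat.card_eq_one_iff_unique] at h
  obtain ⟨h1, ⟨⟨p, ⟨i, hi, hip⟩, ⟨j, hj, hjp⟩⟩⟩⟩ := h
  refine ⟨i, j, hi, hj, hip.trans hjp.symm, ?_⟩
  intro i' j' hi' hj' he
  have h2 := h1.elim ⟨p, ⟨i, hi, hip⟩, ⟨j, hj, hjp⟩⟩ ⟨A.pt x i', ⟨i', hi', rfl⟩, ⟨j', hj', he.symm⟩⟩
  have h3 : p = A.pt x i' := congrArg Subtype.val h2
  constructor
  · exact A.inj x i' i hi' hi (by rw [hip, ← h3])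
  · exact A.inj y j' j hj' hj (by rw [hjp, ← he, ← h3])

theorem POS (hGFA : GFA_stmt) : POS_stmt := by
  intro H _ _ s sg hG A hm
  obtain ⟨g1, g2, g3, g4, g5, g6, g7, g8⟩ := hGFA H s sg hG
  have hne : ∀ x y i j, i < A.len x → j < A.len y → A.pt x i = A.pt y j → x ≠ y → (GG hG).m x y ≠ 0 := by
    intro x y i j hi hj he hxy
    rw [hm x y hxy]
    exact POS_ne A x y i j hi hj he
  have key : ∀ h c, ∃ i j, i < A.len (Sum.inl h) ∧ j < A.len (nb hG h c) ∧
      A.pt (Sum.inl h) i = A.pt (nb hG h c) j ∧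
      ∀ i' j', i' < A.len (Sum.inl h) → j' < A.len (nb hG h c) → A.pt (Sum.inl h) i' = A.pt (nb hG h c) j' →
        i' = i ∧ j' = j := by
    intro h c
    obtain ⟨a1, a2, a3⟩ := g1 h c
    apply POS_one
    rw [← hm _ _ a1, a2]
  choose pos yp k1 k2 k3 k4 using key
  have hmpos : ∀ h c, (GG hG).m (Sum.inl h) (nb hG h c) ≠ 0 := by
    intro h c
    rw [(g1 h c).2.1]
    exact one_ne_zero
  have hmpos' : ∀ h c, (GG hG).m (nb hG h c) (Sum.inl h) ≠ 0 := by
    intro h c
    rw [(g1 h c).2.2]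
    exact one_ne_zero
  have hinj : ∀ h c c', pos h c = pos h c' → c = c' := by
    intro h c c' he
    by_contra hcc
    have h1 : nb hG h c ≠ nb hG h c' := fun e => hcc (g2 h c c' e)
    refine g6 _ _ _ (hmpos h c) (hne _ _ _ _ (k2 h c) (k2 h c') ?_ h1) (hmpos h c')
    rw [← k3, ← k3, he]
  have hsur : ∀ h i, i < A.len (Sum.inl h) → ∃ c, pos h c = i := by
    intro h i hi
    obtain ⟨y, j, hj, hy, hp⟩ := A.common (Sum.inl h) i hi
    obtain ⟨c, rfl⟩ := g4 h y (hne _ _ _ _ hi hj hp.symm hy.symm)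
    exact ⟨c, (k4 h c i j hi hj hp.symm).1.symm⟩
  have hlen : ∀ h, A.len (Sum.inl h) = 10 := by
    intro h
    have h1 : Function.Bijective (fun c : ZMod 10 => (⟨pos h c, k1 h c⟩ : Fin (A.len (Sum.inl h)))) := by
      constructor
      · intro c c' he
        exact hinj h c c' (congrArg Fin.val he)
      · intro i
        obtain ⟨c, hc⟩ := hsur h i.1 i.2
        exact ⟨c, Fin.ext hc⟩
    have h2 := Fintype.card_of_bijective h1
    rw [Fintype.card_fin, ZMod.card] at h2
    exact h2.symm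
  have nbK : ∀ h c (hc : KL c), nb hG h c = Sum.inr (yy hG h c hc) := by
    intro h c hc
    unfold nb
    rw [dif_pos hc]
  have nbR : ∀ h c, ¬ KL c → nb hG h c = Sum.inl (h * s c) := by
    intro h c hc
    unfold nb
    rw [dif_neg hc]
  have hyne : ∀ h c, KL c → yp h c ≠ yp (h * s c) c := by
    intro h c hc he
    have h1 := k3 h c
    have h2 := k3 (h * s c) c
    have e1 := nbK h c hc
    have e2 := nbK (h * s c) c hc
    rw [(g8 h c hc).1, ← e1] at e2
    rw [e2, ← he, ← h1] at h2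
    have h3 := hne _ _ _ _ (k1 (h * s c) c) (k1 h c) h2 (fun e => (g8 h c hc).2 (Sum.inl.inj e))
    refine g6 _ _ _ h3 (hmpos h c) ?_
    rw [← e2]
    exact hmpos (h * s c) c
  have hlenY : ∀ y, A.len (Sum.inr y) = 2 := by
    intro y
    obtain ⟨h, c, hc, rfl⟩ := g7 y
    have e1 := nbK h c hc
    have e2 := nbK (h * s c) c hc
    rw [(g8 h c hc).1] at e2
    have a1 := k2 h c
    have a2 := k2 (h * s c) c
    rw [e1] at a1
    rw [e2] at a2
    have h1 : Finset.range (A.len (Sum.inr (yy hG h c hc))) = {yp h c, yp (h * s c) c} := by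
      ext i
      rw [Finset.mem_range, Finset.mem_insert, Finset.mem_singleton]
      constructor
      · intro hi
        obtain ⟨x, j, hj, hx, hp⟩ := A.common _ i hi
        rcases g5 h c hc x (hne _ _ _ _ hi hj hp.symm hx.symm) with rfl | rfl
        · left
          exact (k4 h c j i hj (by rw [e1]; exact hi) (by rw [e1]; exact hp)).2
        · right
          exact (k4 (h * s c) c j i hj (by rw [e2]; exact hi) (by rw [e2]; exact hp)).2
      · rintro (rfl | rfl)
        · exact a1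
        · exact a2
    have h2 := congrArg Finset.card h1
    rw [Finset.card_range, Finset.card_pair (hyne h c hc)] at h2
    exact h2
  have hypR : ∀ h c, ¬ KL c → yp h c = pos (h * s c) c := by
    intro h c hc
    have e1 := nbR h c hc
    have e2 := nbR (h * s c) c hc
    rw [mul_s_mul_s hG] at e2
    have a1 := k2 h c
    have a3 := k3 h c
    rw [e1] at a1 a3
    exact (k4 (h * s c) c (yp h c) (pos h c) a1 (by rw [e2]; exact k1 h c) (by rw [e2]; exact a3.symm)).1
  refine ⟨pos, yp, ?_⟩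
  constructor
  · exact hlen
  · exact hlenY
  · intro h c
    rw [← hlen h]
    exact k1 h c
  · exact hinj
  · intro h i hi
    exact hsur h i (by rw [hlen]; exact hi)
  · intro h c hc
    rw [← hypR h c hc, ← nbR h c hc]
    exact k3 h c
  · intro h c hc
    rw [← nbK h c hc]
    exact k3 h c
  · intro h c hc
    rw [← hlenY (yy hG h c hc), ← nbK h c hc]
    exact k2 h c
  · exact hyne
  · intro h c hc x i hi hp
    have e1 := nbR h c hc
    have b1 := k2 h c
    have b3 := k3 h c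
    have b4 := hmpos h c
    rw [e1] at b1 b3 b4
    by_cases hx : x = Sum.inl h
    · left
      subst hx
      exact ⟨rfl, A.inj _ _ _ hi (k1 h c) hp⟩
    by_cases hx' : x = Sum.inl (h * s c)
    · right
      subst hx'
      refine ⟨rfl, ?_⟩
      rw [← hypR h c hc]
      exact A.inj _ _ _ hi b1 (hp.trans b3)
    exact (g6 _ _ _ (hne _ _ _ _ hi (k1 h c) hp hx) b4 (hne _ _ _ _ hi b1 (hp.trans b3) hx')).elim
  · intro h c hc x i hi hp
    have e1 := nbK h c hc
    have b1 := k2 h c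
    have b3 := k3 h c
    have b4 := hmpos h c
    rw [e1] at b1 b3 b4
    by_cases hx : x = Sum.inl h
    · left
      subst hx
      exact ⟨rfl, A.inj _ _ _ hi (k1 h c) hp⟩
    by_cases hx' : x = Sum.inr (yy hG h c hc)
    · right
      subst hx'
      refine ⟨rfl, ?_⟩
      exact A.inj _ _ _ hi b1 (hp.trans b3)
    exact (g6 _ _ _ (hne _ _ _ _ hi (k1 h c) hp hx) b4 (hne _ _ _ _ hi b1 (hp.trans b3) hx')).elim

end Pool.Agent.NTA
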